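import Mathlib

set_option autoImplicit false
open scoped InnerProductSpace

namespace Pool.Agent.Results.MP_e5975b_an.Disconn

/-- Pareto solution set -/
def Sol {n m : ℕ} (F : Fin m → EuclideanSpace ℝ (Fin n) → EuclideanSpace ℝ (Fin n))
    (K : Set (EuclideanSpace ℝ (Fin n))) : Set (EuclideanSpace ℝ (Fin n)) :=
  {x | x ∈ K ∧ ∀ y ∈ K,
    ¬ ((∀ l, 0 ≤ ⟪F l x, x - y⟫_ℝ) ∧ (fun l => ⟪F l x, x - y⟫_ℝ) ≠ 0)}

/-- weak Pareto solution set -/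
def SolW {n m : ℕ} (F : Fin m → EuclideanSpace ℝ (Fin n) → EuclideanSpace ℝ (Fin n))
    (K : Set (EuclideanSpace ℝ (Fin n))) : Set (EuclideanSpace ℝ (Fin n)) :=
  {x | x ∈ K ∧ ∀ y ∈ K, ¬ ∀ l, 0 < ⟪F l x, x - y⟫_ℝ}

/-- proper Pareto solution set -/
def SolPr {n m : ℕ} (F : Fin m → EuclideanSpace ℝ (Fin n) → EuclideanSpace ℝ (Fin n))
    (K : Set (EuclideanSpace ℝ (Fin n))) : Set (EuclideanSpace ℝ (Fin n)) :=
  {x | ∃ ξ : Fin m → ℝ, (∀ l, 0 < ξ l) ∧ ∑ l, ξ l = 1 ∧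
    x ∈ K ∧ ∀ y ∈ K, 0 ≤ ⟪∑ l, ξ l • F l x, y - x⟫_ℝ}

abbrev E3 := EuclideanSpace ℝ (Fin 3)

def K : Set E3 := {z | -1 ≤ z 0 ∧ z 0 ≤ 1 ∧ 0 ≤ z 1 ∧ ∀ w : ℝ, 0 ≤ w → w ≤ 1 →
  0 ≤ z 2 + (1 - z 0) * (1 - w) + z 1 * w ^ 2 ∧ 0 ≤ z 2 + (1 + z 0) * (1 - w) + z 1 * w ^ 2}

noncomputable def F : Fin 2 → E3 → E3 := fun l _ => ![!₂[-2, 0, 1], !₂[2, 0, 1]] l

lemma in0 (z w : E3) : ⟪F 0 z, w⟫_ℝ = -2 * w 0 + w 2 := by
  simp [F, PiLp.inner_apply, Fin.sum_univ_three]; ring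

lemma in1 (z w : E3) : ⟪F 1 z, w⟫_ℝ = 2 * w 0 + w 2 := by
  simp [F, PiLp.inner_apply, Fin.sum_univ_three]; ring

lemma K_closed : IsClosed K := by
  simp only [K, Set.setOf_and, Set.setOf_forall]
  refine IsClosed.inter ?_ (IsClosed.inter ?_ (IsClosed.inter ?_
      (isClosed_iInter fun t => isClosed_iInter fun _ => isClosed_iInter fun _ =>
        IsClosed.inter ?_ ?_))) <;>
  exact isClosed_le (by fun_prop) (by fun_prop)

lemma K_convex : Convex ℝ K := by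
  rintro x ⟨a1, a2, a3, a4⟩ y ⟨b1, b2, b3, b4⟩ s r hs hr hsr
  simp only [K, Set.mem_setOf_eq, PiLp.add_apply, PiLp.smul_apply, smul_eq_mul]
  obtain rfl : r = 1 - s := by linarith
  refine ⟨by nlinarith, by nlinarith, by positivity, fun w h0 h1 => ⟨?_, ?_⟩⟩
  · nlinarith [mul_nonneg hs (a4 w h0 h1).1, mul_nonneg hr (b4 w h0 h1).1]
  · nlinarith [mul_nonneg hs (a4 w h0 h1).2, mul_nonneg hr (b4 w h0 h1).2]

lemma W_ne (z : E3) (hz : z ∈ SolW F K) : z 0 ≠ 0 := by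
  intro h
  obtain ⟨⟨a1, a2, a3, a4⟩, hs⟩ := hz
  have hw : 0 < (z 1 + 1)⁻¹ := by positivity
  have hd : 0 < z 2 + 1 := by
    have h1 := (a4 _ hw.le (inv_le_one_of_one_le₀ (by linarith))).1
    have e : (z 1 + 1) * (z 1 + 1)⁻¹ = 1 := by field_simp
    rw [h] at h1
    nlinarith [mul_pos hw hw]
  set d := z 2 + 1 with hdd
  refine hs !₂[0, d⁻¹, z 2 - d / 2] ?_ ?_
  · simp only [K, Set.mem_setOf_eq]; simp
    refine ⟨hd.le, fun w _ _ => ?_⟩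
    have : z 2 - d / 2 + (1 - w) + d⁻¹ * w ^ 2 = d⁻¹ * ((w - d / 2) ^ 2 + d ^ 2 / 4) := by
      rw [show z 2 = d - 1 by linarith]; field_simp; ring
    rw [this]; positivity
  · rw [Fin.forall_fin_two, in0, in1]; simp [h, hd]

lemma Sol_sub : Sol F K ⊆ SolW F K := by
  rintro x ⟨h1, h2⟩
  exact ⟨h1, fun y hy h => h2 y hy ⟨fun l => (h l).le, fun h0 => (h 0).ne' (congrFun h0 0)⟩⟩

lemma Pr_sub : SolPr F K ⊆ SolW F K := by
  rintro x ⟨ξ, h0, -, h1, h2⟩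
  refine ⟨h1, fun y hy h => ?_⟩
  have := h2 y hy
  rw [← neg_sub, inner_neg_right, Fin.sum_univ_two, inner_add_left, real_inner_smul_left,
    real_inner_smul_left] at this
  linarith [mul_pos (h0 0) (h 0), mul_pos (h0 1) (h 1)]

lemma pK : (!₂[1, 0, 0] : E3) ∈ K := by
  simp only [K, Set.mem_setOf_eq]; simp

lemma qK : (!₂[-1, 0, 0] : E3) ∈ K := by
  simp only [K, Set.mem_setOf_eq]; simp

lemma pS : (!₂[1, 0, 0] : E3) ∈ Sol F K := by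
  refine ⟨pK, ?_⟩
  rintro y ⟨a1, a2, a3, a4⟩ ⟨h1, h2⟩
  have := a4 0 le_rfl zero_le_one
  rw [Fin.forall_fin_two, in0, in1] at h1
  refine h2 (funext (Fin.forall_fin_two.2 ?_))
  rw [in0, in1]
  simp at h1 this ⊢
  constructor <;> linarith [h1.1, h1.2, this.1, this.2]

lemma qS : (!₂[-1, 0, 0] : E3) ∈ Sol F K := by
  refine ⟨qK, ?_⟩
  rintro y ⟨a1, a2, a3, a4⟩ ⟨h1, h2⟩
  have := a4 0 le_rfl zero_le_one
  rw [Fin.forall_fin_two, in0, in1] at h1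
  refine h2 (funext (Fin.forall_fin_two.2 ?_))
  rw [in0, in1]
  simp at h1 this ⊢
  constructor <;> linarith [h1.1, h1.2, this.1, this.2]

lemma pP : (!₂[1, 0, 0] : E3) ∈ SolPr F K := by
  refine ⟨![3 / 4, 1 / 4], by simp, by simp; norm_num, pK, ?_⟩
  rintro y ⟨a1, a2, a3, a4⟩
  have := a4 0 le_rfl zero_le_one
  rw [Fin.sum_univ_two, inner_add_left, real_inner_smul_left, real_inner_smul_left, in0, in1]
  simp at this ⊢
  linarith [this.1]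

lemma qP : (!₂[-1, 0, 0] : E3) ∈ SolPr F K := by
  refine ⟨![1 / 4, 3 / 4], by simp, by simp; norm_num, qK, ?_⟩
  rintro y ⟨a1, a2, a3, a4⟩
  have := a4 0 le_rfl zero_le_one
  rw [Fin.sum_univ_two, inner_add_left, real_inner_smul_left, real_inner_smul_left, in0, in1]
  simp at this ⊢
  linarith [this.2]

lemma disc {A : Set E3} (hA : A ⊆ SolW F K) (hp : (!₂[1, 0, 0] : E3) ∈ A)
    (hq : (!₂[-1, 0, 0] : E3) ∈ A) : A.Nonempty ∧ ¬ IsPreconnected A := by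
  refine ⟨⟨_, hp⟩, fun hc => ?_⟩
  have := hc.intermediate_value hq hp (f := fun z : E3 => z 0) (by fun_prop)
  obtain ⟨z, hz, h0⟩ := this (show (0 : ℝ) ∈ _ by simp)
  exact W_ne z (hA hz) h0

theorem result : ∃ (n m : ℕ) (K : Set (EuclideanSpace ℝ (Fin n)))
    (F : Fin m → EuclideanSpace ℝ (Fin n) → EuclideanSpace ℝ (Fin n)),
    1 ≤ n ∧ 1 ≤ m ∧ K.Nonempty ∧ IsClosed K ∧ Convex ℝ K ∧ (∀ l, ContinuousOn (F l) K) ∧
    (∀ l, ∀ x ∈ K, ∀ y ∈ K, 0 ≤ ⟪F l y - F l x, y - x⟫_ℝ) ∧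
    (∀ l, Differentiable ℝ (F l) ∧ ∀ x ∈ K, ∀ i j,
      fderiv ℝ (F l) x (EuclideanSpace.single j 1) i =
        fderiv ℝ (F l) x (EuclideanSpace.single i 1) j) ∧
    ((SolW F K).Nonempty ∧ ¬ IsPreconnected (SolW F K)) ∧
    ((Sol F K).Nonempty ∧ ¬ IsPreconnected (Sol F K)) ∧
    ((SolPr F K).Nonempty ∧ ¬ IsPreconnected (SolPr F K)) := by
  refine ⟨3, 2, K, F, by norm_num, by norm_num, ⟨_, pK⟩, K_closed, K_convex,
    fun l => continuousOn_const, fun l x _ y _ => by simp [F],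
    fun l => ⟨differentiable_const _, fun x _ i j => ?_⟩,
    disc subset_rfl (Sol_sub pS) (Sol_sub qS), disc Sol_sub pS qS, disc Pr_sub pP qP⟩
  have : fderiv ℝ (F l) x = 0 := fderiv_const_apply _
  simp [this]

end Pool.Agent.Results.MP_e5975b_an.Disconn
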